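import Pool.Agent.helper99.ZQ.Spec

/-!
# Row zq:COI
-/

set_option autoImplicit false

namespace Pool.Agent.ZQ

open Finset
open Pool.Agent.helper32.Cant
open Pool.Agent.GA (nrm chi ch St sg flp Psi rc ph pot rpot far nc gf ncs gfs good mj om pick pat et kap mult)
open Pool.Agent.ZR
open Pool.Agent.ZP
open scoped ENNReal

theorem COI_eq (b : ℕ → Bool) : Real.ofDigits (fun i => cond (b i) (2 : Fin 3) 0) = ept b + 1 / 2 := by
  symm
  rw [ept, ← RW_geom.tsum_eq, ← (RW_summable b).tsum_add RW_geom.summable, Real.ofDigits]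
  refine tsum_congr fun i => ?_
  unfold Real.ofDigitsTerm
  cases hb : b i
  · simp [sgn, hb]; ring
  · simp [sgn, hb, pow_succ]; ring

theorem COI_cont : Continuous fun b : ℕ → Bool => Real.ofDigits fun i => cond (b i) (2 : Fin 3) 0 := by
  have h : Continuous fun b : ℕ → Bool => fun i : ℕ => cond (b i) (2 : Fin 3) 0 := by
    refine continuous_pi fun i => ?_
    exact (continuous_of_discreteTopology (f := fun x : Bool => cond x (2 : Fin 3) 0)).comp
      (continuous_apply i)
  exact Real.continuous_ofDigits.comp h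

theorem COI_half (x : Bool) : (PMF.uniformOfFintype Bool).toMeasure {x} = 2⁻¹ := by
  rw [PMF.toMeasure_apply_singleton _ _ (MeasurableSet.singleton x), PMF.uniformOfFintype_apply]
  simp

theorem COI_cyl (n : ℕ) (w : Word n) :
    {b : ℕ → Bool | pre b n = w} =
      Set.pi (Finset.range n) (fun i => {x : Bool | ∀ h : i < n, x = w ⟨i, h⟩}) := by
  ext b
  constructor
  · intro hb i _ h
    have h1 : pre b n = w := hb
    rw [← h1]
    rfl
  · intro hb
    show pre b n = w
    funext i
    exact hb i (Finset.mem_coe.2 (Finset.mem_range.2 i.2)) i.2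

theorem COI : COI_stmt := by
  have hp : MeasureTheory.IsProbabilityMeasure coin := by
    unfold coin
    infer_instance
  have hm : Measurable fun b : ℕ → Bool => Real.ofDigits fun i => cond (b i) (2 : Fin 3) 0 :=
    COI_cont.measurable
  have hp2 : MeasureTheory.IsProbabilityMeasure cmu := by
    unfold cmu
    exact MeasureTheory.Measure.isProbabilityMeasure_map hm.aemeasurable
  have hap : ∀ V : Set ℝ, MeasurableSet V → cmu V = coin {b | ept b + 1 / 2 ∈ V} := by
    intro V hV
    unfold cmu
    rw [MeasureTheory.Measure.map_apply hm hV]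
    have e : (fun b : ℕ → Bool => Real.ofDigits fun i => cond (b i) (2 : Fin 3) 0) ⁻¹' V =
        {b | ept b + 1 / 2 ∈ V} := by
      ext b
      show Real.ofDigits (fun i => cond (b i) (2 : Fin 3) 0) ∈ V ↔ ept b + 1 / 2 ∈ V
      rw [COI_eq]
    rw [e]
  refine ⟨hp, hp2, ?_, ?_, COI_eq, hap, ?_⟩
  · intro n w
    rw [COI_cyl]
    have hmi : ∀ i ∈ Finset.range n, MeasurableSet {x : Bool | ∀ h : i < n, x = w ⟨i, h⟩} :=
      fun i _ => MeasurableSet.of_discrete
    refine ⟨MeasurableSet.pi (Finset.range n).countable_toSet fun i hi => hmi i hi, ?_⟩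
    unfold coin
    rw [MeasureTheory.Measure.infinitePi_pi _ hmi]
    have e : ∀ i ∈ Finset.range n, (PMF.uniformOfFintype Bool).toMeasure
        {x : Bool | ∀ h : i < n, x = w ⟨i, h⟩} = 2⁻¹ := by
      intro i hi
      have hi' : i < n := Finset.mem_range.1 hi
      have h1 : {x : Bool | ∀ h : i < n, x = w ⟨i, h⟩} = {w ⟨i, hi'⟩} := by
        ext x
        exact ⟨fun h => h hi', fun h _ => h⟩
      rw [h1, COI_half]
    rw [Finset.prod_congr rfl e, Finset.prod_const, Finset.card_range]
    rw [one_div, ENNReal.ofReal_inv_of_pos (by positivity), ENNReal.ofReal_pow (by norm_num),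
      ENNReal.ofReal_ofNat, ENNReal.inv_pow]
  · have e : ept = fun b : ℕ → Bool => (Real.ofDigits fun i => cond (b i) (2 : Fin 3) 0) - 1 / 2 := by
      funext b
      rw [COI_eq]
      ring
    rw [e]
    exact hm.sub_const _
  · intro V hV
    have hc : MeasurableSet cantorSet := isClosed_cantorSet.measurableSet
    have h1 : cmu cantorSet = 1 := by
      rw [hap _ hc]
      have e : {b : ℕ → Bool | ept b + 1 / 2 ∈ cantorSet} = Set.univ :=
        Set.eq_univ_of_forall fun b => ept_mem b
      rw [e]
      exact MeasureTheory.measure_univ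
    refine le_antisymm MeasureTheory.prob_le_one ?_
    rw [← h1]
    exact MeasureTheory.measure_mono hV

end Pool.Agent.ZQ
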